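import Mathlib

/-!
MP_be22fd_co: the border between the word half and the analysis half (row 419 of the proofs table).
`F S g a b` is read: the finite system `S` of polynomials has mass `g` near `[a, b]`.
-/

namespace Pool.Agent.W_be22fd_h78

open Polynomial

/-- At the point `x` the spread of `S` is at most `E` times the spread of `S'`. -/
def Dom (E : ℝ) (S S' : Set ℝ[X]) (x : ℝ) : Prop :=
  ∀ P ∈ S, ∀ Q ∈ S, ∃ P' ∈ S', ∃ Q' ∈ S', |P.eval x - Q.eval x| ≤ E * |P'.eval x - Q'.eval x|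

/-- The gain of a level with `N + 1` points `t 0, ..., t N` of logarithmic range `M`. -/
noncomputable def gain (c C : ℝ) (N : ℕ) (M : ℝ) : ℝ :=
  c * N / (1 + Real.log N + Real.log (2 + M)) - C

/-- The calculus of forced masses. `c0, c, C, C0, G0` are absolute constants. -/
structure ForceCalc (c0 c C C0 G0 : ℝ) (d : ℕ) (F : Set ℝ[X] → ℝ → ℝ → ℝ → Prop) : Prop where
  pair : ∀ (P Q : ℝ[X]) (x : ℝ), P ≠ Q → P.natDegree ≤ d → Q.natDegree ≤ d →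
    P.eval x = Q.eval x → F {P, Q} c0 x x
  total : ∀ (S : Set ℝ[X]) (g a b : ℝ), S.Finite → (∀ P ∈ S, P.natDegree ≤ d) →
    F S g a b → g ≤ C0 * d
  step : ∀ (S : Set ℝ[X]) (N : ℕ) (t : ℕ → ℝ) (M E g : ℝ), S.Finite → S.Nontrivial →
    (∀ P ∈ S, P.natDegree ≤ d) → 0 ≤ M → 0 ≤ g → (E = 1 ∨ (E = 2 ∧ G0 ≤ g)) →
    (∀ i, i < N → t i < t (i + 1)) →
    (∀ i, i < N → t N - t 0 ≤ Real.exp M * (t (i + 1) - t i)) →
    (∀ k, 1 ≤ k → k < N → ∀ x, t k < x → x < t (k + 1) →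
      ∃ S' ⊆ S, ∃ a b, F S' g a b ∧ t (k - 1) ≤ a ∧ a ≤ b ∧ b ≤ x ∧ Dom E S S' x) →
    F S (g * gain c C N M) (t 0) (t N)

/-- TARGET OF THE ANALYSIS HALF. -/
def AnalysisTarget : Prop :=
  ∃ c0 c C C0 G0 : ℝ, 0 < c0 ∧ 0 < c ∧ 0 ≤ C ∧ 0 < C0 ∧ 0 ≤ G0 ∧
    ∀ d : ℕ, 1 ≤ d → ∃ F, ForceCalc c0 c C C0 G0 d F

end Pool.Agent.W_be22fd_h78
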