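import Mathlib

/-!
MP_be22fd_co, lower bound through a real line potential argument: definitions.
All functions live on the real line. `PP h` is the Poisson (Cauchy) convolution.
-/

namespace Pool.Agent.W_be22fd_h78

open MeasureTheory Polynomial

/-- Poisson kernel of height `h`. -/
noncomputable def pk (h s : ℝ) : ℝ := h / (Real.pi * (s ^ 2 + h ^ 2))

/-- Poisson convolution. -/
noncomputable def PP (h : ℝ) (f : ℝ → ℝ) (x : ℝ) : ℝ := ∫ t, pk h (x - t) * f t

/-- Integrable against the Poisson kernels. -/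
def Adm (f : ℝ → ℝ) : Prop := Integrable (fun t => f t / (1 + t ^ 2))

/-- Half the logarithm of the squared distance from `t` to the point `(a, b)` of the plane. -/
noncomputable def lg (a b t : ℝ) : ℝ := Real.log ((t - a) ^ 2 + b ^ 2) / 2

/-- Density (times `pi h`) of the mass of `u` at level `h`. -/
noncomputable def dens (h : ℝ) (u : ℝ → ℝ) (t : ℝ) : ℝ := PP h u t - u t

/-- Mass of `u` in the set `S` at level `h`. -/
noncomputable def mu (h : ℝ) (u : ℝ → ℝ) (S : Set ℝ) : ℝ :=
  (∫ t in S, dens h u t) / (Real.pi * h)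

/-- Largest minus smallest value of the functions with index in `S`. -/
noncomputable def spread {ι : Type} (f : ι → ℝ → ℝ) (S : Finset ι) (t : ℝ) : ℝ :=
  if hS : S.Nonempty then S.sup' hS (fun i => f i t) - S.inf' hS (fun i => f i t) else 0

/-- The potential of the subfamily `S`. -/
noncomputable def U {ι : Type} (f : ι → ℝ → ℝ) (S : Finset ι) (t : ℝ) : ℝ :=
  Real.log (spread f S t)

/-- A bounded test function with compact support which is pushed up by `PP h` outside `T`. -/
structure IsTest (h : ℝ) (p : ℝ → ℝ) (T : Set ℝ) (C : ℝ) : Prop where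
  meas : Measurable p
  nonneg : ∀ t, 0 ≤ p t
  le : ∀ t, p t ≤ C
  comp : ∃ R, ∀ t, R < |t| → p t = 0
  sub : ∀ t, t ∉ T → p t ≤ PP h p t

/-- Admissible excluded interval `[y1, y2]` for the interval `[a, b]`. -/
def Excl (a b y1 y2 : ℝ) : Prop :=
  y1 ≤ y2 ∧ ((b < y1 ∧ y2 - y1 ≤ y1 - b) ∨ (y2 < a ∧ y2 - y1 ≤ a - y2))

/-- The interval `[a, b]` enlarged by the factor `1 + 2 e`. -/
def fat (e a b : ℝ) : Set ℝ := Set.Icc (a - e * (b - a)) (b + e * (b - a))

/-- `u` has mass at least `g` near `[a, b]`, even outside an admissible excluded interval. -/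
def Forced (e h : ℝ) (u : ℝ → ℝ) (a b g : ℝ) : Prop :=
  g ≤ mu h u (fat e a b) ∧
  ∀ y1 y2, Excl a b y1 y2 → g ≤ mu h u (fat e a b \ Set.Icc y1 y2)

end Pool.Agent.W_be22fd_h78
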