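import Pool.Agent.W_MP_be22fd_co.Defs
import Pool.Agent.W_MP_be22fd_co.Final

/-!
MP_be22fd_co: the earlier explicit linear lower bound. It was a hand-in of its own until the
stronger `NearQuadratic` replaced it; kept here as a lemma.
-/

namespace Pool.Agent.W_be22fd_h78.LinearForm

open Pool.Agent.W_MP_be22fd_co

/-- If every simple arrangement of `n` pseudolines is `d`-stretchable, then `n ≤ 8 d + 15`. -/
theorem linear_form (n d : ℕ)
    (h : ∀ f : Fin n → ℝ → ℝ, IsArrangement f → IsSimple f → Stretchable d f) :
    n ≤ 8 * d + 15 :=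
  linear_lower_bound n d h

end Pool.Agent.W_be22fd_h78.LinearForm
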