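import Pool.Agent.W_be22fd_h78.Defs

/-!
MP_be22fd_co, lower bound: the exact statements of the analytic modules, as propositions.
-/

namespace Pool.Agent.W_be22fd_h78

open MeasureTheory Polynomial

/-! ### Module A: the kernel -/

def A_log : Prop := ∀ h a b x : ℝ, 0 < h →
  PP h (lg a b) x = lg a (h + |b|) x

def A_log_adm : Prop := ∀ a b : ℝ, Adm (lg a b)

def A_rat : Prop := ∀ h a y α β x : ℝ, 0 < h → 0 < y →
  PP h (fun t => (α * (t - a) + β) / ((t - a) ^ 2 + y ^ 2)) x =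
    (α * (x - a) + β * (y + h) / y) / ((x - a) ^ 2 + (y + h) ^ 2)

def A_symm : Prop := ∀ (h : ℝ) (p w : ℝ → ℝ) (C R : ℝ), 0 < h → Measurable p →
  (∀ t, |p t| ≤ C) → (∀ t, R < |t| → p t = 0) → Adm w →
  ∫ t, p t * PP h w t = ∫ t, w t * PP h p t

/-- integral of the density of one root -/
def A_total : Prop := ∀ h a b : ℝ, 0 < h →
  Integrable (dens h (lg a b)) ∧ ∫ t, dens h (lg a b) t = Real.pi * h

/-! ### Module B: spreads of polynomial families -/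

/-- a family of pairwise different polynomials of degree at most `D`, as functions -/
def PolyFam {ι : Type} (D : ℕ) (f : ι → ℝ → ℝ) : Prop :=
  ∃ P : ι → ℝ[X], Function.Injective P ∧ (∀ i, (P i).natDegree ≤ D) ∧
    ∀ i t, f i t = (P i).eval t

def B_adm : Prop := ∀ (ι : Type) (D : ℕ) (f : ι → ℝ → ℝ) (S : Finset ι),
  PolyFam D f → 2 ≤ S.card → Adm (U f S) ∧ Measurable (U f S)

/-- the density is nonnegative -/
def B_nonneg : Prop := ∀ (ι : Type) (D : ℕ) (f : ι → ℝ → ℝ) (S : Finset ι) (h : ℝ),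
  PolyFam D f → 2 ≤ S.card → 0 < h → ∀ᵐ t, 0 ≤ dens h (U f S) t

/-- the total mass is at most `D` -/
def B_total : Prop := ∀ (ι : Type) (D : ℕ) (f : ι → ℝ → ℝ) (S : Finset ι) (h : ℝ),
  PolyFam D f → 2 ≤ S.card → 0 < h → ∀ A : Set ℝ, Bornology.IsBounded A → MeasurableSet A →
    mu h (U f S) A ≤ D

/-- a crossing of two functions of the family carries mass at least one half -/
def B_leaf : Prop := ∀ (ι : Type) [DecidableEq ι] (D : ℕ) (f : ι → ℝ → ℝ) (i j : ι) (h z r : ℝ),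
  PolyFam D f → i ≠ j → f i z = f j z → 0 < h → h ≤ r →
    1 / 2 ≤ mu h (U f {i, j}) (Set.Icc (z - r) (z + r))

/-! ### Module T: transfer and test functions -/

def T_transfer : Prop := ∀ (h C : ℝ) (p u v : ℝ → ℝ) (T : Set ℝ), 0 < h →
  Adm u → Adm v → IsTest h p T C → (∀ᵐ t, v t ≤ u t) → (∀ᵐ t, t ∈ T → v t = u t) →
  ∫ t, p t * dens h v t ≤ ∫ t, p t * dens h u t

/-- local test function, supported in `[l, r]`, pushed down only in `[x - 2y, x + 2y]` -/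
def T_local : Prop := ∀ h l r x y : ℝ, 0 < h → h ≤ y → 4 * y ≤ x - l → 4 * y ≤ r - x →
  ∃ p : ℝ → ℝ, IsTest h p (Set.Icc (x - 2 * y) (x + 2 * y)) 4 ∧
    (∀ t, t ∉ Set.Icc l r → p t = 0) ∧
    ∀ t ∈ Set.Icc l r,
      y ^ 2 * ((t - l) * (r - t)) / (((t - x) ^ 2 + y ^ 2) * ((x - l) * (r - x))) ≤ p t

/-- tent function on the annulus `r₁ ≤ |t - c| ≤ r₂`, pushed down only in an interval at distance
about `ρ` from `c`, on the side `s = 1` or `s = -1` -/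
def T_tent : Prop := ∃ E : ℝ, 1 ≤ E ∧ ∀ c s r₁ ρ r₂ : ℝ, (s = 1 ∨ s = -1) → 0 < r₁ →
  Real.exp E * r₁ ≤ ρ → Real.exp E * ρ ≤ r₂ →
  ∃ h₀ > 0, ∃ p : ℝ → ℝ, (∀ h, 0 < h → h ≤ h₀ →
      IsTest h p (Set.Icc (c + s * ρ - ρ / 4) (c + s * ρ + ρ / 4)) 8) ∧
    (∀ t, |t - c| ≤ r₁ → p t = 0) ∧ (∀ t, r₂ ≤ |t - c| → p t = 0) ∧
    (∀ t, r₁ ≤ |t - c| → |t - c| ≤ ρ →
      Real.log (|t - c| / r₁) / Real.log (ρ / r₁) - 1 / 50 ≤ p t) ∧
    (∀ t, ρ ≤ |t - c| → |t - c| ≤ r₂ →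
      Real.log (r₂ / |t - c|) / Real.log (r₂ / ρ) - 1 / 50 ≤ p t)

end Pool.Agent.W_be22fd_h78
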