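import Pool.Agent.W_be22fd_h78.Stmts

/-!
MP_be22fd_co, lower bound: statements of the selection lemma, the summation lemma and the
logarithmic range lemma.
-/

namespace Pool.Agent.W_be22fd_h78

open MeasureTheory Polynomial Filter Topology

/-! ### Module S: selection of phases (pure combinatorics of an increasing sequence)
The phases are `[b k, b (k+1)]`, `k < K`, with lengths `len b k`. -/

def len (b : ℕ → ℝ) (k : ℕ) : ℝ := b (k + 1) - b k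

/-- both neighbours of phase `k` have comparable length -/
def GoodPh (A : ℝ) (K : ℕ) (b : ℕ → ℝ) (k : ℕ) : Prop :=
  1 ≤ k ∧ k + 2 ≤ K ∧ len b k ≤ A * len b (k - 1) ∧ len b k ≤ A * len b (k + 1)

/-- the phases `k-2, ..., e-1` shrink towards the centre `b e` -/
def RPh (A : ℝ) (K : ℕ) (b : ℕ → ℝ) (k e : ℕ) : Prop :=
  2 ≤ k ∧ k + 2 ≤ e ∧ e ≤ K ∧ (∀ j, k - 2 ≤ j → j + 2 ≤ e → A * len b (j + 1) ≤ len b j) ∧
    Real.log (len b k / len b (k + 1)) ≤ 2 * Real.log (len b (k - 1) / len b k)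

/-- the phases `e, ..., k+2` grow away from the centre `b e` -/
def LPh (A : ℝ) (K : ℕ) (b : ℕ → ℝ) (k e : ℕ) : Prop :=
  e + 2 ≤ k ∧ k + 3 ≤ K ∧ (∀ j, e ≤ j → j + 1 ≤ k + 2 → A * len b j ≤ len b (j + 1)) ∧
    Real.log (len b k / len b (k - 1)) ≤ 2 * Real.log (len b (k - 1) / len b (k - 2))

/-- territory of an `R` phase (`Λ ^ 2 = A`) -/
def RTerr (Λ : ℝ) (b : ℕ → ℝ) (k e : ℕ) : Set ℝ :=
  {x | len b (k + 1) / Λ ≤ |x - b e| ∧ |x - b e| ≤ len b (k - 1) / 8}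

/-- territory of an `L` phase -/
def LTerr (Λ : ℝ) (b : ℕ → ℝ) (k e : ℕ) : Set ℝ :=
  {x | len b (k - 2) ≤ |x - b e| ∧ |x - b e| ≤ 2 * Λ * len b k}

/-- every point, and every admissible excluded interval, meets at most `C` territories -/
def Sparse (C : ℕ) (K : ℕ) (b : ℕ → ℝ) (I : Finset ℕ) (Terr : ℕ → Set ℝ) : Prop :=
  (∀ x, ∀ I' ⊆ I, (∀ k ∈ I', x ∈ Terr k) → I'.card ≤ C) ∧
  (∀ y1 y2, Excl (b 0) (b K) y1 y2 → ∀ I' ⊆ I,
    (∀ k ∈ I', (Terr k ∩ Set.Icc y1 y2).Nonempty) → I'.card ≤ C)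

def S_sel : Prop := ∀ Λ : ℝ, 100 ≤ Λ → ∃ (c : ℝ) (C : ℕ), 0 < c ∧
  ∀ (K : ℕ) (b : ℕ → ℝ) (H : ℝ), 3 ≤ H → (∀ k < K, b k < b (k + 1)) →
    (∀ k < K, b K - b 0 ≤ Real.exp H * len b k) →
    (∃ I : Finset ℕ, (∀ k ∈ I, GoodPh (Λ ^ 2) K b k) ∧ c * K / Real.log H - C ≤ I.card) ∨
    (∃ (I : Finset ℕ) (e : ℕ → ℕ), (∀ k ∈ I, RPh (Λ ^ 2) K b k (e k)) ∧
      Sparse C K b I (fun k => RTerr Λ b k (e k)) ∧ c * K / Real.log H - C ≤ I.card) ∨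
    (∃ (I : Finset ℕ) (e : ℕ → ℕ), (∀ k ∈ I, LPh (Λ ^ 2) K b k (e k)) ∧
      Sparse C K b I (fun k => LTerr Λ b k (e k)) ∧ c * K / Real.log H - C ≤ I.card)

/-! ### Module SL: the summation lemma -/

/-- a potential: admissible with nonnegative densities -/
structure Pot (u : ℝ → ℝ) : Prop where
  meas : Measurable u
  adm : Adm u
  dens_nonneg : ∀ h, 0 < h → ∀ᵐ t, 0 ≤ dens h u t

/-- children `k` of a system with phases `[b k, b (k+1)]`: two potentials `v1, v2` with mass near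
intervals inside phase `k`, which equal `u` on the two parts of phase `k + 1` -/
structure Child (e0 N : ℝ) (b : ℕ → ℝ) (u : ℝ → ℝ) (k : ℕ) (s : ℝ) (v : ℝ → ℝ) (left : Bool) :
    Prop where
  pot : Pot v
  le : ∀ᵐ t, v t ≤ u t
  eq : ∀ᵐ t, t ∈ (if left then Set.Icc (b (k + 1)) s else Set.Icc s (b (k + 2))) → v t = u t
  mass : ∃ x y, b k ≤ x ∧ x < y ∧ y ≤ b (k + 1) ∧ ∀ᶠ h in 𝓝[>] (0 : ℝ), Forced e0 h v x y N

def SL : Prop := ∃ (e0 c : ℝ) (C : ℕ), 0 < e0 ∧ e0 < 1 ∧ 0 < c ∧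
  ∀ (K : ℕ) (b : ℕ → ℝ) (H N : ℝ) (u : ℝ → ℝ) (s : ℕ → ℝ) (v1 v2 : ℕ → ℝ → ℝ),
    3 ≤ H → 0 ≤ N → (∀ k < K, b k < b (k + 1)) →
    (∀ k < K, b K - b 0 ≤ Real.exp H * len b k) → Pot u →
    (∀ k, k + 1 < K → b (k + 1) ≤ s k ∧ s k ≤ b (k + 2)) →
    (∀ k, k + 1 < K → Child e0 N b u k (s k) (v1 k) true) →
    (∀ k, k + 1 < K → Child e0 N b u k (s k) (v2 k) false) →
    ∀ᶠ h in 𝓝[>] (0 : ℝ), Forced e0 h u (b 0) (b K) (N * (c * K / Real.log H - C))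

/-! ### Module G: logarithmic range -/

/-- four polynomials whose order on both sides of `c` is a 2413 (or 3142) pattern at all distances
between `r₁` and `r₂` -/
def G_range : Prop := ∀ (D : ℕ) (g : Fin 4 → ℝ[X]) (c r₁ r₂ : ℝ), 0 < r₁ → r₁ ≤ r₂ →
  (∀ i, (g i).natDegree ≤ D) →
  (∀ r, r₁ ≤ r → r ≤ r₂ →
    ((g 0).eval (c - r) < (g 1).eval (c - r) ∧ (g 1).eval (c - r) < (g 2).eval (c - r) ∧
      (g 2).eval (c - r) < (g 3).eval (c - r)) ∧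
    ((g 1).eval (c + r) < (g 3).eval (c + r) ∧ (g 3).eval (c + r) < (g 0).eval (c + r) ∧
      (g 0).eval (c + r) < (g 2).eval (c + r))) →
  Real.log (r₂ / r₁) ≤ 200 * (D + 1)

end Pool.Agent.W_be22fd_h78
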